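import Pool.Agent.Helper89.GW.Stmts

/-! # GLUE: gluing local functions with prescribed first order data -/

set_option autoImplicit false

open scoped ContDiff Topology
open Set Filter

namespace GW

/-- a smooth function which is `1 / r` for `1/2 ≤ r` -/
noncomputable def glueT (r : ℝ) : ℝ := Real.smoothTransition (4 * r - 1) / r

lemma glueT_smooth : ContDiff ℝ ∞ glueT := by
  rw [contDiff_iff_contDiffAt]
  intro r
  rcases lt_or_ge r (1 / 4) with h | h
  · have h1 : glueT =ᶠ[𝓝 r] fun _ => 0 := by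
      filter_upwards [gt_mem_nhds h] with x hx
      unfold glueT
      rw [Real.smoothTransition.zero_of_nonpos (by linarith), zero_div]
    exact contDiffAt_const.congr_of_eventuallyEq h1
  · have h1 : ContDiffAt ℝ ∞ (fun r : ℝ => Real.smoothTransition (4 * r - 1)) r :=
      (Real.smoothTransition.contDiff.comp (by fun_prop)).contDiffAt
    exact h1.div contDiffAt_id (by intro h0; have h2 : r = 0 := h0; linarith)

lemma glueT_eq {r : ℝ} (h : 1 / 2 ≤ r) : r * glueT r = 1 := by
  unfold glueT
  rw [Real.smoothTransition.one_of_one_le (by linarith)]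
  field_simp

theorem st_GLUE : ST_GLUE := by
  intro V _ _ _ N h b hN hloc
  choose! O hO hnO H hH hHm using hloc
  have hf : ∀ n ∈ N, ∃ f : V → ℝ, tsupport f ⊆ O n ∧ HasCompactSupport f ∧ ContDiff ℝ ∞ f ∧
      range f ⊆ Icc 0 1 ∧ f n = 1 := fun n hn =>
    exists_contDiff_tsupport_subset ((hO n hn).mem_nhds (hnO n hn))
  choose! f hf1 hf2 hf3 hf4 hf5 using hf
  obtain ⟨s, hsN, hcov⟩ := hN.elim_nhds_subcover (fun n => {x | 1 / 2 < f n x}) (by
    intro n hn
    have : IsOpen {x | 1 / 2 < f n x} := isOpen_lt continuous_const (hf3 n hn).continuous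
    refine this.mem_nhds ?_
    rw [mem_setOf_eq, hf5 n hn]
    norm_num)
  have hnn : ∀ n ∈ s, ∀ x, 0 ≤ f n x := fun n hn x => (hf4 n (hsN n hn) ⟨x, rfl⟩).1
  set σ : V → ℝ := fun x => ∑ n ∈ s, f n x with hσ
  have hσs : ContDiff ℝ ∞ σ := ContDiff.sum (fun n hn => hf3 n (hsN n hn))
  have hσN : ∀ m ∈ N, 1 / 2 < σ m := by
    intro m hm
    obtain ⟨n, hn, hnm⟩ := mem_iUnion₂.1 (hcov hm)
    exact lt_of_lt_of_le hnm (Finset.single_le_sum (fun i hi => hnn i hi m) hn)
  set τ : V → ℝ := fun x => glueT (σ x) with hτ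
  have hτs : ContDiff ℝ ∞ τ := glueT_smooth.comp hσs
  have hst : ∀ m ∈ N, (fun x => ∑ n ∈ s, f n x * τ x) =ᶠ[𝓝 m] fun _ => 1 := by
    intro m hm
    have h1 : {x | 1 / 2 < σ x} ∈ 𝓝 m :=
      (isOpen_lt continuous_const hσs.continuous).mem_nhds (hσN m hm)
    filter_upwards [h1] with x hx
    rw [← Finset.sum_mul]
    exact glueT_eq (le_of_lt hx)
  have hsm : ∀ n ∈ s, ContDiff ℝ ∞ (fun x => f n x * τ x * H n x) := by
    intro n hn
    rw [contDiff_iff_contDiffAt]
    intro x
    by_cases hx : x ∈ tsupport (f n)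
    · have hxO : x ∈ O n := hf1 n (hsN n hn) hx
      have h1 : ContDiffAt ℝ ∞ (H n) x := (hH n (hsN n hn)).contDiffAt
        ((hO n (hsN n hn)).mem_nhds hxO)
      exact ((hf3 n (hsN n hn)).contDiffAt.mul hτs.contDiffAt).mul h1
    · have h1 : (fun x => f n x * τ x * H n x) =ᶠ[𝓝 x] fun _ => 0 := by
        have : (tsupport (f n))ᶜ ∈ 𝓝 x := (isClosed_tsupport _).isOpen_compl.mem_nhds hx
        filter_upwards [this] with y hy
        rw [image_eq_zero_of_notMem_tsupport hy, zero_mul, zero_mul]
      exact contDiffAt_const.congr_of_eventuallyEq h1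
  refine ⟨fun x => ∑ n ∈ s, f n x * τ x * H n x, ContDiff.sum (fun n hn => hsm n hn), ?_, ?_⟩
  · -- compact support
    have hK : IsCompact (⋃ n ∈ s, tsupport (f n)) :=
      s.isCompact_biUnion (fun n hn => hf2 n (hsN n hn))
    refine HasCompactSupport.intro hK ?_
    intro x hx
    apply Finset.sum_eq_zero
    intro n hn
    have : x ∉ tsupport (f n) := fun h' => hx (mem_iUnion₂.2 ⟨n, hn, h'⟩)
    rw [image_eq_zero_of_notMem_tsupport this]
    ring
  · intro m hm
    have hloc2 : ∀ n ∈ s, f n m * τ m * H n m = f n m * τ m * h m ∧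
        HasFDerivAt (fun x => f n x * τ x * H n x)
          ((f n m * τ m) • b m + h m • fderiv ℝ (fun x => f n x * τ x) m) m := by
      intro n hn
      have hd : HasFDerivAt (fun x => f n x * τ x) (fderiv ℝ (fun x => f n x * τ x) m) m :=
        (((hf3 n (hsN n hn)).mul hτs).differentiable (by norm_num) m).hasFDerivAt
      by_cases hmt : m ∈ tsupport (f n)
      · have hmO : m ∈ O n := hf1 n (hsN n hn) hmt
        obtain ⟨e1, e2⟩ := hHm n (hsN n hn) m hm hmO
        have h1 : HasFDerivAt (H n) (b m) m := by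
          rw [← e2]
          exact (((hH n (hsN n hn)).contDiffAt ((hO n (hsN n hn)).mem_nhds hmO)).differentiableAt
            (by norm_num)).hasFDerivAt
        refine ⟨by rw [e1], ?_⟩
        have h2 := hd.mul h1
        rw [e1] at h2
        exact h2
      · have h0 : f n m = 0 := image_eq_zero_of_notMem_tsupport hmt
        have hev : ∀ᶠ x in 𝓝 m, f n x = 0 := by
          have : (tsupport (f n))ᶜ ∈ 𝓝 m := (isClosed_tsupport _).isOpen_compl.mem_nhds hmt
          filter_upwards [this] with x hx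
          exact image_eq_zero_of_notMem_tsupport hx
        refine ⟨by rw [h0]; ring, ?_⟩
        have e1 : (fun x => f n x * τ x) =ᶠ[𝓝 m] fun _ => 0 := by
          filter_upwards [hev] with x hx
          rw [hx, zero_mul]
        have e2 : fderiv ℝ (fun x => f n x * τ x) m = 0 := by
          rw [e1.fderiv_eq]
          exact fderiv_const_apply 0
        have e3 : (fun x => f n x * τ x * H n x) =ᶠ[𝓝 m] fun _ => 0 := by
          filter_upwards [hev] with x hx
          rw [hx, zero_mul, zero_mul]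
        rw [e2, h0, zero_mul, zero_smul, smul_zero, add_zero]
        exact (hasFDerivAt_const 0 m).congr_of_eventuallyEq e3
    have hsum1 : ∑ n ∈ s, f n m * τ m = 1 := (hst m hm).self_of_nhds
    have hsum2 : ∑ n ∈ s, fderiv ℝ (fun x => f n x * τ x) m = 0 := by
      have h1 : HasFDerivAt (fun x => ∑ n ∈ s, f n x * τ x)
          (∑ n ∈ s, fderiv ℝ (fun x => f n x * τ x) m) m := by
        apply HasFDerivAt.fun_sum
        intro n hn
        exact (((hf3 n (hsN n hn)).mul hτs).differentiable (by norm_num) m).hasFDerivAt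
      have h2 : HasFDerivAt (fun x => ∑ n ∈ s, f n x * τ x) (0 : V →L[ℝ] ℝ) m :=
        (hasFDerivAt_const 1 m).congr_of_eventuallyEq (hst m hm)
      exact h1.unique h2
    constructor
    · have h1 : ∑ n ∈ s, f n m * τ m * H n m = ∑ n ∈ s, f n m * τ m * h m :=
        Finset.sum_congr rfl (fun n hn => (hloc2 n hn).1)
      show ∑ n ∈ s, f n m * τ m * H n m = h m
      rw [h1, ← Finset.sum_mul, hsum1, one_mul]
    · have h1 : HasFDerivAt (fun x => ∑ n ∈ s, f n x * τ x * H n x)
          (∑ n ∈ s, ((f n m * τ m) • b m + h m • fderiv ℝ (fun x => f n x * τ x) m)) m :=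
        HasFDerivAt.fun_sum (fun n hn => (hloc2 n hn).2)
      rw [h1.fderiv, Finset.sum_add_distrib, ← Finset.sum_smul, hsum1, one_smul,
        ← Finset.smul_sum, hsum2, smul_zero, add_zero]

end GW
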