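import Pool.Agent.Helper89.GW.Stmts

/-! # GP: a point near which `Lh` is a graph -/

set_option autoImplicit false

open scoped ContDiff Topology
open Set Filter

namespace GW

set_option maxRecDepth 100000 in
lemma gp_checks : sPos aI' (El.cell 9) (El.cell 5) = true ∧
    full aI' (El.cell 9) (El.cell 5) = true ∧ absent bI (El.cell 9) (El.cell 5) = true := by
  decide +kernel

lemma gp_fd (u : ℝ × ℝ → ℝ) (hu : ContDiff ℝ ∞ u) (z : ℝ × ℝ) (k : ℝ) :
    fderiv ℝ (fun z => (fun _ : ℝ × ℝ => (0 : ℝ)) z + u z - k) z = fderiv ℝ u z ∧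
    fderiv ℝ (fun z => (fun _ : ℝ × ℝ => (0 : ℝ)) z - u z + k) z = -fderiv ℝ u z := by
  have h := (hu.differentiable (by norm_num) z).hasFDerivAt
  constructor
  · have h1 : HasFDerivAt (fun z => (fun _ : ℝ × ℝ => (0 : ℝ)) z + u z - k) (0 + fderiv ℝ u z) z :=
      ((hasFDerivAt_const 0 z).add h).sub_const k
    rw [h1.fderiv, zero_add]
  · have h1 : HasFDerivAt (fun z => (fun _ : ℝ × ℝ => (0 : ℝ)) z - u z + k) (0 - fderiv ℝ u z) z :=
      ((hasFDerivAt_const 0 z).sub h).add_const k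
    rw [h1.fderiv, zero_sub]

theorem st_GP (hREG : ST_REG) (hSIGN : ST_SIGN) (hDAT : ST_DAT) (hJFUL : ST_JFUL)
    (hSPD : ST_SPD) (hHHF : ST_HHF) : ST_GP := by
  obtain ⟨-, -, reg2, -⟩ := hREG
  obtain ⟨⟨-, supA', supB, -⟩, -, ⟨-, nnA', -⟩, -⟩ := hDAT
  obtain ⟨-, hh1, -⟩ := hHHF
  obtain ⟨c1, c2, c3⟩ := gp_checks
  have smA : ContDiff ℝ ∞ uA' := (hSPD aI' supA').1
  have hsg : ∀ x t : ℝ, 37 / 4 < x → x < 39 / 4 → 21 / 4 < t → t < 23 / 4 →
      0 < dX uA' (x, t) ∧ ee ≤ uA' (x, t) ∧ uB (x, t) = 0 := by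
    intro x t h1 h2 h3 h4
    have hX : (El.cell 9).mem x := by
      constructor <;> push_cast <;> linarith
    have hT : (El.cell 5).mem t := by
      constructor <;> push_cast <;> linarith
    obtain ⟨s1, -, -, -, -, s6, -⟩ := hSIGN aI' (El.cell 9) (El.cell 5) x t supA' hX hT
    obtain ⟨-, -, -, -, b5, -, -⟩ := hSIGN bI (El.cell 9) (El.cell 5) x t supB hX hT
    have h5 := s6 (fun c _ k _ => nnA' c k) c2
    refine ⟨s1 c1, ?_, b5 c3⟩
    unfold ee
    exact le_trans (by norm_num) h5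
  refine ⟨uA', (19 / 2, 11 / 2),
    {q | 37 / 4 < q 0 ∧ q 0 < 39 / 4 ∧ 21 / 4 < q 2 ∧ q 2 < 23 / 4 ∧ 0 < q 1}, smA, ?_, ?_, ?_, ?_⟩
  · have o1 : IsOpen {q : E | 37 / 4 < q 0} := isOpen_lt continuous_const (continuous_apply 0)
    have o2 : IsOpen {q : E | q 0 < 39 / 4} := isOpen_lt (continuous_apply 0) continuous_const
    have o3 : IsOpen {q : E | 21 / 4 < q 2} := isOpen_lt continuous_const (continuous_apply 2)
    have o4 : IsOpen {q : E | q 2 < 23 / 4} := isOpen_lt (continuous_apply 2) continuous_const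
    have o5 : IsOpen {q : E | 0 < q 1} := isOpen_lt continuous_const (continuous_apply 1)
    exact o1.inter (o2.inter (o3.inter (o4.inter o5)))
  · have h1 := (hsg (19 / 2) (11 / 2) (by norm_num) (by norm_num) (by norm_num) (by norm_num)).1
    simp only [mem_setOf_eq, Matrix.cons_val_zero, Matrix.cons_val_one, Matrix.cons_val]
    exact ⟨by norm_num, by norm_num, by norm_num, by norm_num, h1⟩
  · rintro q ⟨h1, h2, h3, h4, h5⟩
    obtain ⟨g1, g2, g3⟩ := hsg (q 0) (q 2) h1 h2 h3 h4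
    have hO2 : O2 (pr q) := by
      refine ⟨?_, ?_, ?_⟩
      · show 13 / 4 < q 2
        linarith
      · show q 2 < 83 / 4
        linarith
      · rintro ⟨-, h6, -⟩
        have h7 : q 0 ≤ 29 / 4 := h6
        linarith
    have hnB : ∀ v, (q, v) ∉ Jn mR uB := by
      rintro v ⟨s, hs, -⟩
      have h6 : uB (pr q) = 0 := g3
      simp only [h6] at hs
      rw [zero_div, hh1 0 (by norm_num)] at hs
      nlinarith [sq_nonneg s]
    have hmem : ∀ v, (q, v) ∈ Lh ↔ (q, v) ∈ Gr (fun z => (fun _ => (0 : ℝ)) z + uA' z - kk) ∨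
        (q, v) ∈ Gr (fun z => (fun _ => (0 : ℝ)) z - uA' z + kk) := by
      intro v
      rw [reg2 (q, v) hO2]
      constructor
      · rintro (h | h)
        · exact (hJFUL (fun _ => 0) uA' (q, v) contDiff_const smA g2).1 h
        · exact absurd h (hnB v)
      · intro h
        exact Or.inl ((hJFUL (fun _ => 0) uA' (q, v) contDiff_const smA g2).2 h)
    obtain ⟨f1, f2⟩ := gp_fd uA' smA (pr q) kk
    constructor
    · rintro ⟨v, hv⟩
      rcases (hmem v).1 hv with ⟨e1, e2, -⟩ | ⟨e1, e2, -⟩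
      · simp only [dX, dT] at e1 e2 ⊢
        rw [f1] at e1 e2
        exact ⟨e1, e2⟩
      · exfalso
        simp only [dX] at e1
        rw [f2] at e1
        have h6 : 0 < fderiv ℝ uA' (pr q) (1, 0) := g1
        have h7 : q 1 = -(fderiv ℝ uA' (pr q) (1, 0)) := e1
        linarith
    · rintro ⟨e1, e2⟩
      refine ⟨(fun _ => (0 : ℝ)) (pr q) + uA' (pr q) - kk, (hmem _).2 (Or.inl ⟨?_, ?_, rfl⟩)⟩
      · simp only [dX] at e1 ⊢
        rw [f1]
        exact e1
      · simp only [dT] at e2 ⊢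
        rw [f1]
        exact e2
  · rintro q ⟨h1, h2, h3, h4, h5⟩
    linarith

end GW
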