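import Pool.Agent.Helper89.GW.Stmts

/-! # PULL: symplectic pull back -/

set_option autoImplicit false

open scoped ContDiff Topology
open Set Filter

namespace GW

/-- the vector dual to a covector -/
def pullX (a : E →L[ℝ] ℝ) : E := ![a (ev 1), -a (ev 0), a (ev 3), -a (ev 2)]

lemma pull_expand (a : E →L[ℝ] ℝ) (u : E) :
    a u = u 0 * a (ev 0) + u 1 * a (ev 1) + u 2 * a (ev 2) + u 3 * a (ev 3) := by
  have h : u = u 0 • ev 0 + u 1 • ev 1 + u 2 • ev 2 + u 3 • ev 3 := by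
    ext i
    fin_cases i <;> simp [ev, Pi.single_apply]
  conv_lhs => rw [h]
  simp only [map_add, map_smul, smul_eq_mul]

lemma pull_om_X (a : E →L[ℝ] ℝ) (u : E) : om (pullX a) u = a u := by
  rw [pull_expand a u]
  simp only [om, pullX, Matrix.cons_val_zero, Matrix.cons_val_one, Matrix.cons_val]
  ring

lemma pull_br (a b : E →L[ℝ] ℝ) : br a b = om (pullX a) (pullX b) := by
  rw [pull_om_X, pull_expand a]
  simp only [br, pullX, Matrix.cons_val_zero, Matrix.cons_val_one, Matrix.cons_val]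
  ring

lemma pull_nondeg {u : E} (h : ∀ v, om u v = 0) : u = 0 := by
  have h0 := h (ev 0)
  have h1 := h (ev 1)
  have h2 := h (ev 2)
  have h3 := h (ev 3)
  simp only [om, ev, Pi.single_apply] at h0 h1 h2 h3
  ext i
  fin_cases i
  · simpa using h1
  · simpa using h0
  · simpa using h3
  · simpa using h2

lemma pull_om_sub (u v w : E) : om (u - v) w = om u w - om v w := by
  simp only [om, Pi.sub_apply]
  ring

lemma pull_surj {A : E →L[ℝ] E} (hA : ∀ u v, om (A u) (A v) = om u v) :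
    Function.Surjective A := by
  have hinj : Function.Injective (A : E →ₗ[ℝ] E) := by
    rw [← LinearMap.ker_eq_bot, LinearMap.ker_eq_bot']
    intro u hu
    apply pull_nondeg
    intro v
    rw [← hA u v]
    have : A u = 0 := hu
    rw [this]
    simp [om]
  exact LinearMap.injective_iff_surjective.1 hinj

lemma pull_XA {A : E →L[ℝ] E} (hA : ∀ u v, om (A u) (A v) = om u v) (a : E →L[ℝ] ℝ) :
    A (pullX (a.comp A)) = pullX a := by
  rw [← sub_eq_zero]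
  apply pull_nondeg
  intro v
  obtain ⟨u, rfl⟩ := pull_surj hA v
  rw [pull_om_sub, hA, pull_om_X, pull_om_X]
  simp

lemma pull_br_comp {A : E →L[ℝ] E} (hA : ∀ u v, om (A u) (A v) = om u v) (a b : E →L[ℝ] ℝ) :
    br (a.comp A) (b.comp A) = br a b := by
  rw [pull_br, pull_br, ← pull_XA hA a, ← pull_XA hA b, hA]

theorem st_PULL : ST_PULL := by
  intro L Θ V p hV hpV hΘ hsymp hL
  obtain ⟨V', hV', hpV', G₁, G₂, hG₁, hG₂, hiff, hli, hbr⟩ := hL
  have hopen : IsOpen (V ∩ Θ ⁻¹' V') := hΘ.continuousOn.isOpen_inter_preimage hV hV'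
  have hΘd : ∀ q ∈ V, DifferentiableAt ℝ Θ q := fun q hq =>
    (hΘ.contDiffAt (hV.mem_nhds hq)).differentiableAt (by norm_num)
  have hd : ∀ G : E → ℝ, ContDiffOn ℝ ∞ G V' → ∀ q ∈ V ∩ Θ ⁻¹' V',
      fderiv ℝ (G ∘ Θ) q = (fderiv ℝ G (Θ q)).comp (fderiv ℝ Θ q) := by
    intro G hG q hq
    have h1 : DifferentiableAt ℝ G (Θ q) :=
      (hG.contDiffAt (hV'.mem_nhds hq.2)).differentiableAt (by norm_num)
    exact fderiv_comp q h1 (hΘd q hq.1)
  have hsm : ∀ G : E → ℝ, ContDiffOn ℝ ∞ G V' → ContDiffOn ℝ ∞ (G ∘ Θ) (V ∩ Θ ⁻¹' V') := by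
    intro G hG
    exact hG.comp (hΘ.mono inter_subset_left) (fun q hq => hq.2)
  refine ⟨V ∩ Θ ⁻¹' V', hopen, ⟨hpV, hpV'⟩, G₁ ∘ Θ, G₂ ∘ Θ, hsm G₁ hG₁, hsm G₂ hG₂, ?_, ?_, ?_⟩
  · intro q hq
    exact hiff (Θ q) hq.2
  · rw [hd G₁ hG₁ p ⟨hpV, hpV'⟩, hd G₂ hG₂ p ⟨hpV, hpV'⟩]
    rw [LinearIndependent.pair_iff] at hli ⊢
    intro s t hst
    apply hli s t
    ext v
    obtain ⟨u, rfl⟩ := pull_surj (hsymp p hpV) v
    have := congrArg (fun f : E →L[ℝ] ℝ => f u) hst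
    simpa using this
  · intro q hq h1 h2
    rw [hd G₁ hG₁ q hq, hd G₂ hG₂ q hq, pull_br_comp (hsymp q hq.1)]
    exact hbr (Θ q) hq.2 h1 h2

end GW
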